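import Pool.Agent.H414.GE.Lsa
import Pool.Agent.H414.GL.Lv
import Pool.Agent.H414.GL.Ml
import Pool.Agent.H414.GL.Gr
import Pool.Agent.H414.GL.Wt
import Pool.Agent.H414.GL.Sc
import Pool.Agent.H414.GL.Cc
import Pool.Agent.H414.GL.T2

/-!
# The exponent 2 is the exact strength of the generalized Riemann hypothesis for least primes in progressions

The generalized Riemann hypothesis gives `p(q, a) ≪ q ^ (2 + ε)` for the least prime in the class `a` modulo `q`. We show
that this is all that bounds of this kind can give, even for MOST prime moduli `q`.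

Let `c j : ℕ → ℂ` be countably many arbitrary twists with `|c j p| ≤ 1`, and let `L` be a set of positive integers `l` with
`l' ≥ 2 l + 2` for `l < l'` in `L`. There is a set `P` of primes of relative density one, with weights
`w k ∈ [1 - C / (k + 1), 1]` and

`|∑_{p ≤ x, p ∈ P} c j p χ(p) - ∑_k w k ∑_{p ≤ x, 2 ^ k < p ≤ 2 ^ (k + 1)} c j p χ(p)| ≤ C √x log (x + 2) log ((j + 2) q (x + 2))`

for all `j`, all Dirichlet characters `χ` modulo `q`, all `q` and all `x`, such that for all large `l ∈ L`, for all the primes `q`
between `2 ^ l` and `2 ^ (l + 1)` outside a set of at most `C 2 ^ l / (l + 1) ^ 2`, there is a reduced residue class modulo `q`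
which contains NO element `p ≤ q ^ 2` of `P`.

So no exponent smaller than 2 follows from the bounds which the generalized Riemann hypothesis gives for the sums of
characters over the primes, even if such bounds were known for the sums with countably many arbitrary twists, and even
if exceptions are allowed for most of the moduli.

Proof. For `l ∈ L` the primes `q` of the block are treated one after another. For each `q` the elements `p` of
a class `a_q`, `2 ^ (l + 1) < p ≤ 4 ^ (l + 1)`, are removed from the primes. The class is chosen such that an exponential potential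
of all the sums (a martingale) does not increase. The sum of the conditional variances is bounded, for each sequence of
choices, by a maximal large sieve inequality of Rademacher-Menshov type, which is applied to the order in which
the primes are removed.
-/

set_option autoImplicit false

namespace Pool.Agent.Results.MP_5b0a7e_nt.ExactStrengthOfGRH

open Pool.Agent.H414.LT (blk)
open Pool.Agent.H414.GL

/-- Sets of primes of relative density one, with square root cancellation in all sums with Dirichlet characters and
arbitrary twists, and with least elements in progressions larger than `q ^ 2` for almost all primes `q` of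
infinitely many dyadic blocks. -/
theorem result : ∀ L : Set ℕ, (∀ l ∈ L, ∀ l' ∈ L, l < l' → 2 * l + 2 ≤ l') →
    ∀ c : ℕ → ℕ → ℂ, (∀ j n, ‖c j n‖ ≤ 1) →
    ∃ (P : Set ℕ) (w : ℕ → ℝ) (C : ℝ) (l₀ : ℕ), (∀ p ∈ P, p.Prime) ∧
      (∀ k : ℕ, 1 - C / ((k : ℝ) + 1) ≤ w k ∧ 1 / 2 ≤ w k ∧ w k ≤ 1) ∧ Near P w c ∧
      ∀ l ∈ L, l₀ ≤ l → ∃ E ⊆ blk l, (E.card : ℝ) ≤ C * 2 ^ l / ((l : ℝ) + 1) ^ 2 ∧
        ∀ q ∈ blk l, q ∉ E → ∃ a : ℕ, a.Coprime q ∧ ∀ p ∈ P, p ≤ q ^ 2 → ¬ p ≡ a [MOD q] :=
  t2 wtb (cc wtb (sc (ml (lv Pool.Agent.H414.GE.lsa)) gr wtb))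

end Pool.Agent.Results.MP_5b0a7e_nt.ExactStrengthOfGRH
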