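import Mathlib
import Pool.Agent.H524.RevC

/-!
The largest least prime in the residue classes modulo the powers of `X`, in the polynomial ring over
a finite field with an even number `q` of elements.

The norm of a nonzero polynomial `M` over `K` is `|M| = q ^ deg M`. Congruence of `P` and `a` modulo
`X ^ m` is written `X ^ m ∣ P - a`, and `a` is prime to `X ^ m` when its constant coefficient is
not zero.
-/

open Polynomial

/-- Let `K` be a finite field with an even number `q` of elements.

(1) There is a constant `c > 0` such that for every `m`, with `M = X ^ m`, there is a reduced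
residue class modulo `M` all of whose irreducible elements `P` satisfy
`|P| ≥ c * |M| * (log |M|) ^ 2`.

(2) Let `c < (q - 1) ^ 2 / (16 * q * (log q) ^ 2)`. For infinitely many `m`, with `M = X ^ m`,
there is a reduced residue class modulo `M` all of whose irreducible elements `P` satisfy
`|P| > c * |M| * (log |M|) ^ 2`. -/
theorem Pool.Agent.Results.MP_5b0a7e_nt.FunctionFieldPowers.result
    (K : Type*) [Field K] [Fintype K] (hK : Even (Fintype.card K)) :
    (∃ c : ℝ, 0 < c ∧ ∀ m : ℕ, ∃ a : K[X], a.coeff 0 ≠ 0 ∧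
      ∀ P : K[X], Irreducible P → X ^ m ∣ P - a →
        c * ((Fintype.card K : ℝ) ^ m * Real.log ((Fintype.card K : ℝ) ^ m) ^ 2) ≤
        (Fintype.card K : ℝ) ^ P.natDegree) ∧
    (∀ c : ℝ, c < ((Fintype.card K : ℝ) - 1) ^ 2 /
        (16 * (Fintype.card K : ℝ) * Real.log (Fintype.card K : ℝ) ^ 2) →
      ∀ B : ℕ, ∃ m : ℕ, B ≤ m ∧ ∃ a : K[X], a.coeff 0 ≠ 0 ∧
        ∀ P : K[X], Irreducible P → X ^ m ∣ P - a →
          c * ((Fintype.card K : ℝ) ^ m * Real.log ((Fintype.card K : ℝ) ^ m) ^ 2) <
          (Fintype.card K : ℝ) ^ P.natDegree) :=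
  ⟨Pool.Agent.H524.rev_all hK, fun c hc B => Pool.Agent.H524.rev_limsup hK c hc B⟩
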