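import Pool.Agent.H533.QA.ArbMc

/-!
# Prescribed sets of terms of the progressions modulo `d` contain primes, for a positive proportion
of the classes

The question: does every reduced class `a` modulo `d` contain a prime `a + j d` with
`j ≤ C (φ(d)/d) (log d)²`?  We prescribe the multipliers: let `A ⊆ J` be ARBITRARY sets of integers
`0 ≤ j ≤ (log d) ^ B`, where `A` has at least `ρ (φ(d)/d) log d` and `J` at most `Λ (φ(d)/d) log d`
elements (`ρ > 0` is arbitrarily small, so that on average `A` catches only about `ρ` primes).  If the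
ratios `h/φ(h)` of the differences `h` of the elements of `A` are bounded on average, then for a positive
proportion of the reduced classes `a` modulo `d` at least `m` of the numbers `a + j d`, `j ∈ A`, are
prime and all the numbers `a + j d`, `j ∈ J`, `j ∉ A`, are composite (or `1`).  This holds for every
modulus `d ≥ d₀`, and the proportion does not depend on `B`, `d`, `A`, `J`.  The condition on the
differences is satisfied whenever `A` is contained in an interval of length `Λ (φ(d)/d) log d`, at any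
height up to `(log d) ^ B`.
-/

set_option autoImplicit false

open Finset Filter Topology

namespace Pool.Agent.Results.MP_5b0a7e_nt.PrescribedTerms

open Pool.Agent.H533.QA

/-- `(φ(d)/d) log d` -/
noncomputable def scale (d : ℕ) : ℝ := (Nat.totient d : ℝ) / d * Real.log d

/-- the sum of the ratios `h / φ(h)` over the differences `h = j - i > 0` of the elements of `A` -/
noncomputable def ratios (A : Finset ℕ) : ℝ :=
  ∑ i ∈ A, ∑ j ∈ A.filter (fun j => i < j), (((j - i : ℕ) : ℝ) / Nat.totient (j - i))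

/-- `a` is prime to `d`, at least `m` of the numbers `a + j d`, `j ∈ A`, are prime, and no number
`a + j d` with `j ∈ J` and `j ∉ A` is prime -/
def Good (m : ℕ) (A J : Finset ℕ) (d a : ℕ) : Prop :=
  a.Coprime d ∧ m ≤ (A.filter (fun j => (a + j * d).Prime)).card ∧
    ∀ j ∈ J, (a + j * d).Prime → j ∈ A

open Classical in
/-- **Prescribed terms of the progressions modulo `d`** -/
theorem result :
    (∀ (m : ℕ) (ρ Λ C : ℝ), 0 < ρ → 0 < Λ → 0 < C →
      ∃ c : ℝ, 0 < c ∧ ∀ B : ℕ, ∃ d₀ : ℕ, ∀ d : ℕ, d₀ ≤ d → ∀ A J : Finset ℕ, A ⊆ J →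
        (∀ j ∈ J, (j : ℝ) ≤ Real.log d ^ B) → ρ * scale d ≤ A.card → (J.card : ℝ) ≤ Λ * scale d →
        ratios A ≤ C * (A.card : ℝ) ^ 2 →
        c * (Nat.totient d : ℝ) ≤ (((range d).filter (fun a => Good m A J d a)).card : ℝ)) ∧
    (∀ (m : ℕ) (ρ Λ : ℝ), 0 < ρ → 0 < Λ →
      ∃ c : ℝ, 0 < c ∧ ∀ B : ℕ, ∃ d₀ : ℕ, ∀ d : ℕ, d₀ ≤ d → ∀ A J : Finset ℕ, A ⊆ J →
        (∀ j ∈ J, (j : ℝ) ≤ Real.log d ^ B) → ρ * scale d ≤ A.card → (J.card : ℝ) ≤ Λ * scale d →
        (∃ y : ℕ, ∀ j ∈ A, y ≤ j ∧ (j : ℝ) ≤ y + Λ * scale d) →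
        c * (Nat.totient d : ℝ) ≤ (((range d).filter (fun a => Good m A J d a)).card : ℝ)) := by
  have main : ∀ (m : ℕ) (ρ Λ C : ℝ), 0 < ρ → 0 < Λ → 0 < C →
      ∃ c : ℝ, 0 < c ∧ ∀ B : ℕ, ∃ d₀ : ℕ, ∀ d : ℕ, d₀ ≤ d → ∀ A J : Finset ℕ, A ⊆ J →
        (∀ j ∈ J, (j : ℝ) ≤ Real.log d ^ B) → ρ * scale d ≤ A.card → (J.card : ℝ) ≤ Λ * scale d →
        ratios A ≤ C * (A.card : ℝ) ^ 2 →
        c * (Nat.totient d : ℝ) ≤ (((range d).filter (fun a => Good m A J d a)).card : ℝ) := by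
    intro m ρ Λ C hρ hΛ hC
    exact arbMc m ρ Λ C hρ hΛ hC
  refine ⟨main, ?_⟩
  intro m ρ Λ hρ hΛ
  obtain ⟨c, hc, H⟩ := main m ρ Λ (4 * Λ / ρ) hρ hΛ (by positivity)
  refine ⟨c, hc, fun B => ?_⟩
  obtain ⟨d₀, h⟩ := H B
  refine ⟨d₀ + 1, fun d hd A J hAJ hJ hA hJc hy => ?_⟩
  obtain ⟨y, hy⟩ := hy
  have hs : 0 ≤ scale d := by
    unfold scale
    have := Real.log_natCast_nonneg d
    positivity
  refine h d (by omega) A J hAJ hJ hA hJc ?_
  have h1 : pairs A ≤ (A.card : ℝ) * (4 * (⌊Λ * scale d⌋₊ : ℝ)) := by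
    apply pairs_interval A y
    intro j hj
    obtain ⟨h2, h3⟩ := hy j hj
    refine ⟨h2, ?_⟩
    have h4 : ((j - y : ℕ) : ℝ) ≤ Λ * scale d := by
      rw [Nat.cast_sub h2]
      linarith
    have := Nat.le_floor h4
    omega
  have h5 : ratios A = pairs A := rfl
  rw [h5]
  refine h1.trans ?_
  have h6 : (⌊Λ * scale d⌋₊ : ℝ) ≤ Λ * scale d := Nat.floor_le (by positivity)
  have h7 : Λ * scale d ≤ Λ / ρ * A.card := by
    calc Λ * scale d = Λ / ρ * (ρ * scale d) := by field_simp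
      _ ≤ _ := mul_le_mul_of_nonneg_left hA (by positivity)
  calc (A.card : ℝ) * (4 * (⌊Λ * scale d⌋₊ : ℝ)) ≤ (A.card : ℝ) * (4 * (Λ / ρ * A.card)) := by
        apply mul_le_mul_of_nonneg_left _ (Nat.cast_nonneg _)
        linarith
    _ = _ := by ring

end Pool.Agent.Results.MP_5b0a7e_nt.PrescribedTerms
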