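import Pool.Agent.H301.SV.All

/-!
# The number of rough integers in the progression `a mod n` under every sieve weight on the modulus `n`

A nonnegative function `w` of level `Q` (a sum of functions with periods `d ≤ Q`, no further condition, in particular no lower
bound for its mean) is put on the moduli `n` prime to `a`.  The number of `h ≤ U` for which `a + h n` is free of the primes
`≤ Q` is expected to be `U ∏_{p ≤ Q, p ∤ n} (1 - 1/p)`, about `U n / (φ(n) log Q)`.  We prove that the `w`-mean of the two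
agree up to the factor `1 + O(2 ^ (-b))` if `U ≥ (log Q) ^ (C (b + 1))`.  For instance no such weight is carried by moduli
for which the progression has no, or fewer than `1 - 2 ^ (-b)` times the expected number of, rough integers with
`h ≤ (log Q) ^ (C (b + 1))`, and Maier's irregularities for progressions must disappear as the exponent grows.

Pieces by helpers of an earlier run (projects EH and LG of helper422), assembled by helper301.
-/

set_option autoImplicit false

open Finset

namespace Pool.Agent.Results.MP_5b0a7e_nt.ProgressionsUnderSieveWeights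

/-- the weight `w(n) = ∑_{d ≤ Q} c_d(n mod d)`, an arbitrary real function of level `Q` -/
noncomputable def weight (Q : ℕ) (c : ℕ → ℕ → ℝ) (n : ℕ) : ℝ := ∑ d ∈ Icc 1 Q, c d (n % d)

/-- the mean value of `F` over the period `Q!` -/
noncomputable def mean (Q : ℕ) (F : ℕ → ℝ) : ℝ := (∑ n ∈ range Q.factorial, F n) / (Q.factorial : ℝ)

/-- the number of `h`, `1 ≤ h ≤ U`, for which `a + h n` has no prime factor `≤ Q` -/
noncomputable def rough (a U Q n : ℕ) : ℕ := {h : ℕ | 1 ≤ h ∧ h ≤ U ∧ ∀ p : ℕ, p.Prime → p ≤ Q → ¬ p ∣ a + h * n}.ncard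

/-- the expected number `U ∏_{p ≤ Q, p ∤ n} (1 - 1/p)` -/
noncomputable def expected (U Q n : ℕ) : ℝ :=
  U * ∏ p ∈ (Icc 1 Q).filter (fun p => p.Prime ∧ ¬ p ∣ n), (1 - 1 / (p : ℝ))

/-- There is `C` such that for all `b` and `a ≥ 1` and all large `Q`, all `U ≥ (log Q) ^ (C (b + 1))` and every nonnegative
weight `w` of level `Q` carried by the `n` prime to `a`: the `w`-means of the number of `h ≤ U` for which `a + h n` has no
prime factor `≤ Q` and of the expected number differ by at most `2 ^ (-b)` times the latter. -/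
theorem result : ∃ C : ℕ, ∀ b a : ℕ, 1 ≤ a → ∃ Q₀ : ℕ, ∀ Q : ℕ, Q₀ ≤ Q → ∀ U : ℕ, Real.log Q ^ (C * (b + 1)) ≤ U →
    ∀ c : ℕ → ℕ → ℝ, (∀ n, 0 ≤ weight Q c n) → (∀ n, ¬ Nat.Coprime n a → weight Q c n = 0) →
    |mean Q (fun n => weight Q c n * (rough a U Q n : ℝ)) - mean Q (fun n => weight Q c n * expected U Q n)| ≤
      (1 / 2 : ℝ) ^ b * mean Q (fun n => weight Q c n * expected U Q n) := by
  obtain ⟨C, -, h⟩ := Pool.Agent.H301.SV.ehf
  refine ⟨C, fun b a ha => ?_⟩
  obtain ⟨Q₀, h⟩ := h b a ha
  refine ⟨Q₀, fun Q hQ U hU c h1 h2 => ?_⟩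
  have h := h Q hQ U hU c h1 h2
  have e1 : ∀ n, rough a U Q n = (Pool.Agent.N422.EH.SE a U Q n).card := by
    intro n
    unfold rough Pool.Agent.N422.EH.SE
    rw [← Set.ncard_coe_finset]
    congr 1
    ext x
    simp only [Set.mem_ofPred_eq, coe_filter, mem_Icc, mem_filter]
    constructor
    · rintro ⟨a1, a2, a3⟩
      exact ⟨⟨a1, a2⟩, fun p hp => a3 p hp.2 hp.1.2⟩
    · rintro ⟨⟨a1, a2⟩, a3⟩
      exact ⟨a1, a2, fun p hp hpQ => a3 p ⟨⟨hp.one_lt.le, hpQ⟩, hp⟩⟩
  have e2 : ∀ n, expected U Q n = U * Pool.Agent.N422.EH.GG Q n := by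
    intro n
    unfold expected Pool.Agent.N422.EH.GG
    rw [filter_filter]
  have e3 : mean Q (fun n => weight Q c n * expected U Q n) =
      U * Pool.Agent.N422.LG.mQ Q (fun n => Pool.Agent.N422.SL.wt Q c n * Pool.Agent.N422.EH.GG Q n) := by
    unfold mean Pool.Agent.N422.LG.mQ
    rw [← mul_div_assoc, mul_sum]
    congr 1
    refine sum_congr rfl fun n _ => ?_
    show weight Q c n * expected U Q n = U * (weight Q c n * Pool.Agent.N422.EH.GG Q n)
    rw [e2]
    ring
  have e4 : mean Q (fun n => weight Q c n * (rough a U Q n : ℝ)) = Pool.Agent.N422.LG.mQ Q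
      (fun n => Pool.Agent.N422.SL.wt Q c n * ((Pool.Agent.N422.EH.SE a U Q n).card : ℝ)) := by
    unfold mean Pool.Agent.N422.LG.mQ
    congr 1
    refine sum_congr rfl fun n _ => ?_
    show weight Q c n * (rough a U Q n : ℝ) = weight Q c n * _
    rw [e1]
  rw [e3, e4]
  exact h

end Pool.Agent.Results.MP_5b0a7e_nt.ProgressionsUnderSieveWeights
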